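import Pool.Agent.Lib_helper78.FB.Short

/-!
# Conformal volume bounds for free boundary minimal submanifolds of the unit ball
-/

open MeasureTheory InnerProductSpace Filter Topology FBV
open scoped RealInnerProductSpace ContDiff

namespace Pool.Agent.Results.MP_947d36_gt.ConformalVolumeBounds

/-- `confFactor` in the notation of the problem: for `‖y‖ > 1` and `c = y / ‖y‖²` it is
`(‖y‖² - 1) / ‖x - y‖²`. -/
theorem confFactor_eq {n : ℕ} {y x : E n} (hy : y ≠ 0) :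
    confFactor ((‖y‖ ^ 2)⁻¹ • y) x = (‖y‖ ^ 2 - 1) / ‖x - y‖ ^ 2 := by
  have h0 : 0 < ‖y‖ := norm_pos_iff.2 hy
  unfold confFactor
  rw [norm_smul, real_inner_smul_left, norm_inv, norm_pow, norm_norm, norm_sub_sq_real,
    real_inner_comm x y]
  have h1 : 1 - 2 * ((‖y‖ ^ 2)⁻¹ * ⟪x, y⟫) + ((‖y‖ ^ 2)⁻¹ * ‖y‖) ^ 2 * ‖x‖ ^ 2
      = (‖x‖ ^ 2 - 2 * ⟪x, y⟫ + ‖y‖ ^ 2) * (‖y‖ ^ 2)⁻¹ := by
    field_simp
    ring
  have h2 : 1 - ((‖y‖ ^ 2)⁻¹ * ‖y‖) ^ 2 = (‖y‖ ^ 2 - 1) * (‖y‖ ^ 2)⁻¹ := by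
    field_simp
  rw [h1, h2, mul_div_mul_right _ _ (by positivity)]

theorem confVol_eq {n k : ℕ} {V : Measure (E n × (E n →L[ℝ] E n))} {c : E n} (hc : c ≠ 0) :
    confVol k V c
      = ∫ z, ((‖(‖c‖ ^ 2)⁻¹ • c‖ ^ 2 - 1) / ‖z.1 - (‖c‖ ^ 2)⁻¹ • c‖ ^ 2) ^ k ∂V := by
  unfold confVol
  congr 1
  funext z
  have h0 : 0 < ‖c‖ := norm_pos_iff.2 hc
  have hy : (‖c‖ ^ 2)⁻¹ • c ≠ 0 := smul_ne_zero (by positivity) hc
  rw [← confFactor_eq hy]
  congr 2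
  rw [norm_smul, norm_inv, norm_pow, norm_norm, smul_smul]
  have : ((((‖c‖ ^ 2)⁻¹ * ‖c‖) ^ 2)⁻¹ * (‖c‖ ^ 2)⁻¹) = 1 := by field_simp
  rw [this, one_smul]

theorem confVol_zero {n k : ℕ} {V : Measure (E n × (E n →L[ℝ] E n))} :
    confVol k V (0 : E n) = V.real Set.univ := by
  unfold confVol confFactor
  simp

theorem main {n k : ℕ} (hk : 2 ≤ k) {V : Measure (E n × (E n →L[ℝ] E n))}
    {σ : Measure (E n)} (h : IsFBStationary n k V σ) (c : E n) (hc : ‖c‖ < 1) :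
    confVol k V c ≤ 2 * (1 + ‖c‖) ^ (k - 2) * V.real Set.univ ∧
    confVol k V c ≤ ((1 + ‖c‖) * ((1 - ‖c‖) / (1 + ‖c‖)) ^ k
      + (1 - ‖c‖) * ((1 + ‖c‖) / (1 - ‖c‖)) ^ k) / 2 * V.real Set.univ ∧
    (k = 2 → confVol k V c ≤ (1 + (‖c‖ / (1 - ‖c‖ + ‖c‖ ^ 2)) ^ 2) * V.real Set.univ) := by
  have hF := h.finV
  have hM : 0 ≤ V.real Set.univ := measureReal_nonneg
  by_cases hc0 : c = 0
  · subst hc0
    rw [confVol_zero]
    refine ⟨?_, ?_, ?_⟩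
    · simp only [norm_zero, add_zero, one_pow, mul_one]
      linarith
    · simp only [norm_zero]
      norm_num
    · intro _
      simp
  · have h0 : 0 < ‖c‖ := norm_pos_iff.2 hc0
    have hp : ‖(‖c‖ ^ 2)⁻¹ • c‖ = ‖c‖⁻¹ := by
      rw [norm_smul, norm_inv, norm_pow, norm_norm]
      field_simp
    have hp1 : 1 < ‖(‖c‖ ^ 2)⁻¹ • c‖ := by
      rw [hp]
      exact (one_lt_inv₀ h0).2 hc
    have hpi : ‖(‖c‖ ^ 2)⁻¹ • c‖⁻¹ = ‖c‖ := by rw [hp, inv_inv]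
    rw [confVol_eq hc0]
    refine ⟨?_, ?_, ?_⟩
    · have := int_uniform hk h hp1
      rwa [hpi] at this
    · have := int_chord hk h hp1
      rwa [hpi] at this
    · rintro rfl
      have := int_D h hp1
      refine this.trans (le_of_eq ?_)
      rw [hp]
      congr 2
      congr 1
      have h1 : 1 - ‖c‖ + ‖c‖ ^ 2 ≠ 0 := by nlinarith
      have h2 : ‖c‖⁻¹ ^ 2 - ‖c‖⁻¹ + 1 = (1 - ‖c‖ + ‖c‖ ^ 2) / ‖c‖ ^ 2 := by
        field_simp
      rw [h2]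
      field_simp

/-- Let `V` be a `k`-varifold (`k ≥ 2`) in the unit ball of `ℝⁿ` which is stationary with free
boundary (for instance an immersed free boundary minimal submanifold). Then the volume of its
image under the conformal diffeomorphism of the ball with parameter `c`, `‖c‖ = r < 1`, is at most
`2 (1 + r)^{k-2} |V|`, and at most
`½ ((1 + r) ((1 - r)/(1 + r))^k + (1 - r) ((1 + r)/(1 - r))^k) |V| = (1 + O(r²)) |V|`;
for `k = 2` it is at most `(1 + (r / (1 - r + r²))²) |V| ≤ 2 |V|`. -/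
theorem result {n k : ℕ} (hk : 2 ≤ k) {V : Varifold n} {σ : Measure (E n)}
    (h : StationaryFB k V σ) (c : E n) (r : ℝ) (hr : ‖c‖ = r) (hr1 : r < 1) :
    imageVolume k V c ≤ 2 * (1 + r) ^ (k - 2) * mass V ∧
    imageVolume k V c ≤ ((1 + r) * ((1 - r) / (1 + r)) ^ k
      + (1 - r) * ((1 + r) / (1 - r)) ^ k) / 2 * mass V ∧
    (k = 2 → imageVolume k V c ≤ (1 + (r / (1 - r + r ^ 2)) ^ 2) * mass V) := by
  subst hr
  exact main hk h.old c hr1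

end Pool.Agent.Results.MP_947d36_gt.ConformalVolumeBounds
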