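import Mathlib
import Pool.Agent.FBM.G.FinG
import Pool.Agent.FBM.G.G2All

/-!
# Free boundary minimal surfaces do not maximise area in their conformal orbit

Disproof of Q1 of MP_947d36_gt, already for `n = 3` and `k = 2`.  The definitions
(`IsFBMS`, `IsConformalDiffeo`, `IsVolume`, `VolumeInequality`) are in `Pool/Agent/FBM/G/Geo.lean`.
-/

set_option autoImplicit false

namespace Pool.Agent.Results.MP_947d36_gt.NotMaximalInOrbit

open Pool.Agent.FBM

/-- There are a compact smooth surface `S` with boundary, an immersed free boundary minimal
surface `x : S → B^3` and a conformal diffeomorphism `f` of the closed ball `B^3` such that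
`|f(S)| > |S|`. -/
theorem result : ¬ VolumeInequality 3 2 := fin_G stmt_G2

end Pool.Agent.Results.MP_947d36_gt.NotMaximalInOrbit
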