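import Pool.Agent.Lib_helper78.FB.Formula

/-!
# Second order behaviour of the volume of free boundary minimal submanifolds at the identity
-/

open MeasureTheory InnerProductSpace FBV
open scoped RealInnerProductSpace ContDiff

namespace Pool.Agent.Results.MP_947d36_gt.SecondVariation

/-- Let `V` be a `k`-varifold (`k ≥ 2`) in the unit ball of `ℝⁿ` which is stationary with free
boundary (for instance an immersed free boundary minimal submanifold). The volume of the image of
`V` under the conformal diffeomorphism with parameter `c` is stationary at `c = 0`, and its second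
derivative at `0` in the direction of the unit vector `e` is
`4 (∫ |x^⊥|² dV - (k + 1) ∫ |x|² |e^⊥|² dV)`, where `v^⊥ = v - P v` is the part of `v` normal to
`V`. Hence the sum of the second derivatives over `k + 1` orthonormal directions is at most
`-2k(k+1) ∫ (1 - |x|²) dV`. -/
theorem result {n k : ℕ} (hk : 2 ≤ k) {V : Varifold n} {σ : Measure (E n)}
    (h : StationaryFB k V σ) :
    (∀ e : E n, ‖e‖ = 1 → deriv (fun t : ℝ => imageVolume k V (t • e)) 0 = 0 ∧
      deriv (deriv (fun t : ℝ => imageVolume k V (t • e))) 0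
        = 4 * (∫ z, ‖z.1 - z.2 z.1‖ ^ 2 ∂V
          - ((k : ℝ) + 1) * ∫ z, ‖z.1‖ ^ 2 * ‖e - z.2 e‖ ^ 2 ∂V)) ∧
    (∀ e : Fin (k + 1) → E n, Orthonormal ℝ e →
      ∑ i, deriv (deriv (fun t : ℝ => imageVolume k V (t • e i))) 0
        ≤ -(2 * k * ((k : ℝ) + 1)) * ∫ z, (1 - ‖z.1‖ ^ 2) ∂V) :=
  ⟨fun _ he => ⟨deriv_confVol hk h.old he, second_derivative hk h.old he⟩,
    fun _ he => second_order_confVol hk h.old he⟩

end Pool.Agent.Results.MP_947d36_gt.SecondVariation
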